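import Pool.Agent.TH722.AF.Core5
namespace Pool.Agent.TH722.AF
open MeasureTheory Set Filter Pool.Agent.TH722.FI Jobs
open scoped Topology ENNReal
open Pool.Agent.TH480.FI (lab_pair lab_of_finer lab_comp lab_finite)

theorem antitone_lim (f : ℕ → ℝ) (hf : Antitone f) :
    Tendsto (fun n => ((f n : ℝ) : EReal)) atTop (𝓝 (⨅ n, ((f n : ℝ) : EReal))) := by
  apply tendsto_atTop_iInf
  intro a b h
  exact EReal.coe_le_coe_iff.mpr (hf h)

theorem inf_le_of (f : ℕ → ℝ) (y : ℝ) (h : ∀ ε > 0, ∃ m, f m ≤ y + ε) :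
    (⨅ n, ((f n : ℝ) : EReal)) ≤ (y : EReal) := by
  refine EReal.le_of_forall_lt_iff_le.mp ?_
  intro z hz
  have hz' : y < z := EReal.coe_lt_coe_iff.mp hz
  obtain ⟨m, hm⟩ := h (z - y) (by linarith)
  refine (iInf_le _ m).trans (EReal.coe_le_coe_iff.mpr ?_)
  linarith

theorem inf_add (f g h : ℕ → ℝ) (hf : Antitone f) (hg : Antitone g)
    (h1 : ∀ i j : ℕ, ∀ ε > 0, ∃ n, h n ≤ f i + g j + ε)
    (h2 : ∀ n : ℕ, ∀ ε > 0, ∃ i j, f i + g j ≤ h n + ε) :
    (⨅ n, ((h n : ℝ) : EReal)) = (⨅ n, ((f n : ℝ) : EReal)) + ⨅ n, ((g n : ℝ) : EReal) := by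
  have hF : (⨅ n, ((f n : ℝ) : EReal)) ≠ ⊤ :=
    ne_of_lt (lt_of_le_of_lt (iInf_le _ 0) (EReal.coe_lt_top _))
  have hG : (⨅ n, ((g n : ℝ) : EReal)) ≠ ⊤ :=
    ne_of_lt (lt_of_le_of_lt (iInf_le _ 0) (EReal.coe_lt_top _))
  have hlim : Tendsto (fun n => ((f n : ℝ) : EReal) + ((g n : ℝ) : EReal)) atTop
      (𝓝 ((⨅ n, ((f n : ℝ) : EReal)) + ⨅ n, ((g n : ℝ) : EReal))) := by
    have hc := EReal.continuousAt_add (p := ((⨅ n, ((f n : ℝ) : EReal)), ⨅ n, ((g n : ℝ) : EReal)))
      (Or.inl hF) (Or.inr hG)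
    exact hc.tendsto.comp ((antitone_lim f hf).prodMk_nhds (antitone_lim g hg))
  apply le_antisymm
  · refine ge_of_tendsto' hlim fun n => ?_
    rw [← EReal.coe_add]
    exact inf_le_of h _ fun ε hε => h1 n n ε hε
  · refine le_iInf fun n => ?_
    refine EReal.le_of_forall_lt_iff_le.mp ?_
    intro z hz
    have hz' : h n < z := EReal.coe_lt_coe_iff.mp hz
    obtain ⟨i, j, hij⟩ := h2 n (z - h n) (by linarith)
    refine (add_le_add (iInf_le _ i) (iInf_le _ j)).trans ?_
    rw [← EReal.coe_add]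
    exact EReal.coe_le_coe_iff.mpr (by linarith)

section
variable {r : ℕ} {X : Type*} [MeasurableSpace X] {μ : Measure X} [IsProbabilityMeasure μ]
  {α β γ : Type*}

/-- independence of the generator (one inequality) -/
theorem gen_indep (T : FreeGroup (Fin r) → X → X) (hT : PmpAct μ T) {l : X → α} (hl : IsLab μ l)
    {q : X → β} (hq : IsLab μ q) (gl : Gen μ T l) (gq : Gen μ T q) :
    ∀ n : ℕ, ∀ ε > 0, ∃ n', BF μ T (ballLab T q n') ≤ BF μ T (ballLab T l n) + ε := by
  intro n ε hε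
  obtain ⟨n1, h1⟩ := (abramov_rohlin T hT hl hq (gen_egen' T hT hl gl)).2 n (ε / 2) (by positivity)
  obtain ⟨n2, h2⟩ := (abramov_rohlin T hT hq hl (gen_egen' T hT hq gq)).1 0 n1 (ε / 2)
    (by positivity)
  refine ⟨n2, ?_⟩
  have h3 := h1 0
  have h4 : BF μ T (fun x => (ballLab T q 0 x, ballLab T l n1 x)) =
      BF μ T (fun x => (ballLab T l n1 x, ballLab T q 0 x)) := by
    apply BF_congr
    · intro x y h
      simp only [Prod.mk.injEq] at h ⊢
      exact ⟨h.2, h.1⟩
    · intro x y h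
      simp only [Prod.mk.injEq] at h ⊢
      exact ⟨h.2, h.1⟩
  linarith

theorem inf_eq_of_gen (T : FreeGroup (Fin r) → X → X) (hT : PmpAct μ T) {l : X → α}
    (hl : IsLab μ l) {q : X → β} (hq : IsLab μ q) (gl : Gen μ T l) (gq : Gen μ T q) :
    (⨅ n, ((BF μ T (ballLab T l n) : ℝ) : EReal)) = ⨅ n, ((BF μ T (ballLab T q n) : ℝ) : EReal) := by
  apply le_antisymm
  · exact le_iInf fun n => inf_le_of _ _ fun ε hε => gen_indep T hT hq hl gq gl n ε hε
  · exact le_iInf fun n => inf_le_of _ _ fun ε hε => gen_indep T hT hl hq gl gq n ε hε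
end

universe u
/-- the addition formula in the working definitions -/
theorem main_working {r : ℕ} {A B C : Type u} [AddCommGroup A] [TopologicalSpace A]
    [DiscreteTopology A] [AddCommGroup B] [TopologicalSpace B] [DiscreteTopology B]
    [AddCommGroup C] [TopologicalSpace C] [DiscreteTopology C]
    [Module (MonoidAlgebra ℤ (FreeGroup (Fin r))) A]
    [Module (MonoidAlgebra ℤ (FreeGroup (Fin r))) B]
    [Module (MonoidAlgebra ℤ (FreeGroup (Fin r))) C]
    (i : A →ₗ[MonoidAlgebra ℤ (FreeGroup (Fin r))] B)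
    (p : B →ₗ[MonoidAlgebra ℤ (FreeGroup (Fin r))] C)
    (hi : Function.Injective i) (hp : Function.Surjective p)
    (hex : ∀ b, p b = 0 ↔ ∃ a, i a = b)
    {kA kB kC : ℕ} (φA : Dual A → Fin kA) (φB : Dual B → Fin kB) (φC : Dual C → Fin kC)
    (mA : Measurable φA) (mB : Measurable φB) (mC : Measurable φC)
    (gA : Gen (haar A) (act (r := r)) φA) (gB : Gen (haar B) (act (r := r)) φB)
    (gC : Gen (haar C) (act (r := r)) φC) :
    (⨅ n, ((BF (haar B) (act (r := r)) (ballLab (act (r := r)) φB n) : ℝ) : EReal)) =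
      (⨅ n, ((BF (haar A) (act (r := r)) (ballLab (act (r := r)) φA n) : ℝ) : EReal)) +
      ⨅ n, ((BF (haar C) (act (r := r)) (ballLab (act (r := r)) φC n) : ℝ) : EReal) := by
  obtain ⟨pA, hA, aA⟩ := act_pmp (r := r) (A := A)
  obtain ⟨pB, hB, aB⟩ := act_pmp (r := r) (A := B)
  obtain ⟨pC, hC, aC⟩ := act_pmp (r := r) (A := C)
  have : Countable (FreeGroup (Fin r)) :=
    Function.Injective.countable FreeGroup.toWord_injective
  have cA : Countable A := countable_of_gen act aA.mp φA mA gA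
  have cB : Countable B := countable_of_gen act aB.mp φB mB gB
  have cC : Countable C := countable_of_gen act aC.mp φC mC gC
  have sA : SecondCountableTopology (Dual A) := dual_secondCountable
  have sB : SecondCountableTopology (Dual B) := dual_secondCountable
  have sC : SecondCountableTopology (Dual C) := dual_secondCountable
  obtain ⟨e1, e2, e3⟩ := dual_exact i.toAddMonoidHom p.toAddMonoidHom hi hp hex
  obtain ⟨c1, ⟨d, dm, dt⟩, c3⟩ := compact_setup (dualHom p.toAddMonoidHom)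
    (dualHom i.toAddMonoidHom) e1 e2 e3 (haar C) (haar B)
  have hE : Ext (r := r) (haar B) (haar C) (haar A) act act act (dualHom i.toAddMonoidHom)
      (fun b c => b * dualHom p.toAddMonoidHom c) d := by
    refine ⟨aB, aC, aA, haar_map _ e2, fun g b => dual_equiv i g b, c1, fun g b c => ?_,
      fun b c => ?_, dm, dt, c3⟩
    · rw [dual_equiv p g c]
      simp only [act, map_mul]
    · rw [map_mul]
      have : dualHom i.toAddMonoidHom (dualHom p.toAddMonoidHom c) = 1 := (e3 _).mpr ⟨c, rfl⟩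
      rw [this, mul_one]
  have lA : ∀ v, MeasurableSet {x | φA x = v} := fun v => mA (measurableSet_singleton v)
  have lB : ∀ v, MeasurableSet {x | φB x = v} := fun v => mB (measurableSet_singleton v)
  have lC : ∀ v, MeasurableSet {x | φC x = v} := fun v => mC (measurableSet_singleton v)
  obtain ⟨i1, i2⟩ := core_ineq hE φB φC φA lB lC lA gB gC gA
  exact inf_add _ _ _ (bf_anti act aA (lab_finite lA (Set.toFinite _)))
    (bf_anti act aC (lab_finite lC (Set.toFinite _))) i1 i2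

end Pool.Agent.TH722.AF
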