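import Mathlib
import Pool.Agent.TH722.FI.Defs

/-!
Shared definitions for the project addition formula for the f-invariant (MP_46d37e_an).
-/

namespace Pool.Agent.TH722.AF

open MeasureTheory Set Filter Pool.Agent.TH722.FI
open scoped Topology ENNReal

/-- a pmp action of the free group, given as a function (not necessarily free) -/
structure PmpAct {r : ℕ} {X : Type*} [MeasurableSpace X] (μ : Measure X)
    (T : FreeGroup (Fin r) → X → X) : Prop where
  one : ∀ x, T 1 x = x
  mul : ∀ g h x, T (g * h) x = T g (T h x)
  mp : ∀ g, MeasurePreserving (T g) μ μ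

/-- the sequence of labels `p n` is generating, in terms of entropy -/
def EGen {X : Type*} [MeasurableSpace X] (μ : Measure X) {P : ℕ → Type*} (p : ∀ n, X → P n) :
    Prop :=
  ∀ c : X → ℕ, IsLab μ c → ∀ ε > 0, ∃ n0, ∀ n ≥ n0,
    ent μ (fun x => (p n x, c x)) - ent μ (p n) ≤ ε

section dual

universe u
variable (A : Type u) [AddCommGroup A] [TopologicalSpace A]

/-- Pontryagin dual of an additive group -/
def Dual : Type u := PontryaginDual (Multiplicative A)

noncomputable instance : CommGroup (Dual A) :=
  inferInstanceAs (CommGroup (PontryaginDual (Multiplicative A)))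
instance : TopologicalSpace (Dual A) :=
  inferInstanceAs (TopologicalSpace (PontryaginDual (Multiplicative A)))
instance : IsTopologicalGroup (Dual A) :=
  inferInstanceAs (IsTopologicalGroup (PontryaginDual (Multiplicative A)))
instance : T2Space (Dual A) :=
  inferInstanceAs (T2Space (PontryaginDual (Multiplicative A)))
instance [DiscreteTopology A] : CompactSpace (Dual A) :=
  inferInstanceAs (CompactSpace (PontryaginDual (Multiplicative A)))
instance : MeasurableSpace (Dual A) := borel _
instance : BorelSpace (Dual A) := ⟨rfl⟩

/-- value of the character `χ` at `a` -/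
noncomputable def Dual.eval {A : Type u} [AddCommGroup A] [TopologicalSpace A] (χ : Dual A) (a : A) : Circle :=
  (show PontryaginDual (Multiplicative A) from χ) (Multiplicative.ofAdd a)

/-- normalised Haar measure on the dual -/
noncomputable def haar [DiscreteTopology A] : Measure (Dual A) :=
  MeasureTheory.Measure.haarMeasure ⊤

/-- dual of a homomorphism of discrete groups -/
noncomputable def dualHom {A B : Type u} [AddCommGroup A] [TopologicalSpace A]
    [DiscreteTopology A] [AddCommGroup B] [TopologicalSpace B]
    (f : A →+ B) : Dual B →ₜ* Dual A :=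
  PontryaginDual.map
    { toMonoidHom := AddMonoidHom.toMultiplicative f
      continuous_toFun := continuous_of_discreteTopology }

/-- the dual action `(gχ)(a) = χ(g⁻¹ a)` -/
noncomputable def act {r : ℕ} {A : Type u} [AddCommGroup A] [TopologicalSpace A]
    [DiscreteTopology A] [Module (MonoidAlgebra ℤ (FreeGroup (Fin r))) A]
    (g : FreeGroup (Fin r)) (χ : Dual A) : Dual A :=
  dualHom (Module.toAddMonoidEnd (MonoidAlgebra ℤ (FreeGroup (Fin r))) A
    (MonoidAlgebra.of ℤ (FreeGroup (Fin r)) g⁻¹)) χ

theorem act_eval {r : ℕ} {A : Type u} [AddCommGroup A] [TopologicalSpace A]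
    [DiscreteTopology A] [Module (MonoidAlgebra ℤ (FreeGroup (Fin r))) A]
    (g : FreeGroup (Fin r)) (χ : Dual A) (a : A) :
    (act g χ).eval a = χ.eval (MonoidAlgebra.of ℤ (FreeGroup (Fin r)) g⁻¹ • a) := rfl

end dual

end Pool.Agent.TH722.AF
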