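import Pool.Agent.TH480.FI.FI_LAB
import Pool.Agent.TH959.FI_FSPLIT
import Pool.Agent.TH722.FI.JU
import Pool.Agent.TH722.AF.Defs
namespace Pool.Agent.TH722.FI
open MeasureTheory Set Filter
open Pool.Agent.TH480.FI (lab_pair lab_of_finer lab_comp)
open Pool.Agent.TH959.FIS (F_split F_join F_congr)
open Pool.Agent.TH722.AF (PmpAct)
open scoped Topology ENNReal

section free
variable {r : ℕ}

/-- the sum-of-exponents homomorphism -/
noncomputable def sgm : FreeGroup (Fin r) →* Multiplicative ℤ :=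
  FreeGroup.lift (fun _ => Multiplicative.ofAdd 1)

theorem sgm_of (i : Fin r) : sgm (FreeGroup.of i) = Multiplicative.ofAdd 1 := by
  simp [sgm]

theorem of_ne_inv (i j : Fin r) : FreeGroup.of i ≠ (FreeGroup.of j)⁻¹ := by
  intro h
  have h1 := congrArg sgm h
  rw [map_inv, sgm_of, sgm_of] at h1
  have h2 : (1 : ℤ) = -1 := congrArg Multiplicative.toAdd h1
  omega

theorem fg_inv_ne (g : FreeGroup (Fin r)) (hg : g ≠ 1) : g⁻¹ ≠ g := by
  intro h
  apply hg
  have h2 : g ^ 2 = 1 := by
    rw [pow_two]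
    nth_rewrite 1 [← h]
    exact inv_mul_cancel g
  exact (pow_eq_one_iff_left (by norm_num)).mp h2

variable (r) in
/-- the symmetric generating set -/
noncomputable def Gs : Finset (FreeGroup (Fin r)) :=
  (Finset.univ.image fun i : Fin r => FreeGroup.of i) ∪
    (Finset.univ.image fun i : Fin r => (FreeGroup.of i)⁻¹)

theorem mem_Gs (g : FreeGroup (Fin r)) :
    g ∈ Gs r ↔ ∃ i, g = FreeGroup.of i ∨ g = (FreeGroup.of i)⁻¹ := by
  simp only [Gs, Finset.mem_union, Finset.mem_image, Finset.mem_univ, true_and]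
  constructor
  · rintro (⟨i, rfl⟩ | ⟨i, rfl⟩)
    · exact ⟨i, Or.inl rfl⟩
    · exact ⟨i, Or.inr rfl⟩
  · rintro ⟨i, rfl | rfl⟩
    · exact Or.inl ⟨i, rfl⟩
    · exact Or.inr ⟨i, rfl⟩

theorem sum_Gs (f : FreeGroup (Fin r) → ℝ) :
    ∑ g ∈ Gs r, f g = ∑ i : Fin r, (f (FreeGroup.of i) + f (FreeGroup.of i)⁻¹) := by
  rw [Gs, Finset.sum_union, Finset.sum_image, Finset.sum_image, Finset.sum_add_distrib]
  · intro i _ j _ h
    exact FreeGroup.of_injective (inv_injective h)
  · intro i _ j _ h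
    exact FreeGroup.of_injective h
  · rw [Finset.disjoint_left]
    intro g hg hg'
    simp only [Finset.mem_image, Finset.mem_univ, true_and] at hg hg'
    obtain ⟨i, rfl⟩ := hg
    obtain ⟨j, hj⟩ := hg'
    exact of_ne_inv i j hj.symm

end free

section
variable {r : ℕ} {X : Type*} [MeasurableSpace X] {μ : Measure X}
  [IsProbabilityMeasure μ] {α β γ : Type*}

/-- the Cayley family -/
def CayD (X : Type*) (r : ℕ) (g : FreeGroup (Fin r)) : Set X :=
  {_x | ∃ i, g = FreeGroup.of i ∨ g = (FreeGroup.of i)⁻¹}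

theorem cayD_GF [MulAction (FreeGroup (Fin r)) X] (S : Finset (FreeGroup (Fin r)))
    (hS : Gs r ⊆ S) : GF (CayD X r) S where
  meas := by
    intro g
    by_cases h : ∃ i, g = FreeGroup.of i ∨ g = (FreeGroup.of i)⁻¹
    · have : CayD X r g = univ := by ext x; simp [CayD, h]
      rw [this]; exact MeasurableSet.univ
    · have : CayD X r g = ∅ := by ext x; simp only [CayD, h]; simp
      rw [this]; exact MeasurableSet.empty
  symm := by
    intro g x
    simp only [CayD, mem_ofPred_eq]
    constructor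
    · rintro ⟨i, rfl | rfl⟩
      · exact ⟨i, Or.inr rfl⟩
      · exact ⟨i, Or.inl (inv_inv _)⟩
    · rintro ⟨i, h | h⟩
      · exact ⟨i, Or.inr (by rw [← h, inv_inv])⟩
      · exact ⟨i, Or.inl (inv_injective h)⟩
  supp := by
    intro g hg
    ext x
    simp only [CayD, mem_ofPred_eq, mem_empty_iff_false, iff_false]
    intro h
    exact hg (hS ((mem_Gs g).mpr h))
  one := by
    ext x
    simp only [CayD, mem_ofPred_eq, mem_empty_iff_false, iff_false]
    rintro ⟨i, h | h⟩
    · exact FreeGroup.of_ne_one i h.symm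
    · exact FreeGroup.of_ne_one i (inv_eq_one.mp h.symm)

theorem ent_congr {a : X → α} {b : X → β} (h : Finer a b) (h' : Finer b a) :
    ent μ a = ent μ b := by
  unfold ent info mass
  congr 1
  ext x
  congr 3
  ext y
  exact ⟨h y x, h' y x⟩

theorem isLab_congr {a : X → α} {b : X → β} (ha : IsLab μ a) (h : Finer a b) :
    IsLab μ b := (lab_of_finer ha h).1

theorem BF_eq_F [MulAction (FreeGroup (Fin r)) X]
    (hact : ∀ g : FreeGroup (Fin r), MeasurePreserving (fun x : X => g • x) μ μ)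
    (S : Finset (FreeGroup (Fin r))) (hS : Gs r ⊆ S) {l : X → α} (hl : IsLab μ l) :
    BF μ (fun (g : FreeGroup (Fin r)) (x : X) => g • x) l = F μ S (CayD X r) l := by
  have hsub : ∑ g ∈ S, J μ (CayD X r g) l (fun x => l (g • x)) =
      ∑ g ∈ Gs r, J μ (CayD X r g) l (fun x => l (g • x)) := by
    symm
    apply Finset.sum_subset hS
    intro g _ hg
    have : CayD X r g = ∅ := (cayD_GF (Gs r) (le_refl _)).supp g hg
    rw [this]
    simp [J]
  have hJ : ∀ g ∈ Gs r, J μ (CayD X r g) l (fun x => l (g • x)) =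
      2 * ent μ l - ent μ (fun x => (l x, l (g • x))) := by
    intro g hg
    have : CayD X r g = univ := by
      ext x
      simp only [CayD, mem_ofPred_eq, mem_univ, iff_true]
      exact (mem_Gs g).mp hg
    rw [this, J_univ' hl (lab_comp (hact g) hl).1, (lab_comp (hact g) hl).2]
    ring
  rw [F, hsub, Finset.sum_congr rfl hJ, sum_Gs]
  have hinv : ∀ i : Fin r, ent μ (fun x => (l x, l ((FreeGroup.of i : FreeGroup (Fin r)) • x))) =
      ent μ (fun x => (l x, l ((FreeGroup.of i : FreeGroup (Fin r))⁻¹ • x))) := by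
    intro i
    have hp := (lab_pair hl (lab_comp (hact (FreeGroup.of i)) hl).1).1
    have h1 := (lab_comp (hact (FreeGroup.of i)⁻¹) hp).2
    rw [← h1]
    apply ent_congr
    · intro x y hxy
      simp only [Prod.mk.injEq, smul_inv_smul] at hxy ⊢
      exact ⟨hxy.2, hxy.1⟩
    · intro x y hxy
      simp only [Prod.mk.injEq, smul_inv_smul] at hxy ⊢
      exact ⟨hxy.2, hxy.1⟩
  simp_rw [hinv]
  unfold BF
  simp only [Finset.sum_add_distrib, Finset.sum_sub_distrib, Finset.sum_const, Finset.card_univ,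
    Fintype.card_fin, nsmul_eq_mul]
  ring

/-- the `MulAction` attached to a function action -/
@[reducible] def actOfP {μ : Measure X} (U : FreeGroup (Fin r) → X → X) (hU : PmpAct μ U) :
    MulAction (FreeGroup (Fin r)) X where
  smul := U
  one_smul := hU.one
  mul_smul := hU.mul

theorem BF_congr (U : FreeGroup (Fin r) → X → X) {l : X → α} {l' : X → β}
    (h : Finer l l') (h' : Finer l' l) : BF μ U l = BF μ U l' := by
  unfold BF
  rw [ent_congr h h']
  congr 1
  apply Finset.sum_congr rfl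
  intro i _
  apply ent_congr
  · intro x y hxy
    simp only [Prod.mk.injEq] at hxy ⊢
    exact ⟨h _ _ hxy.1, h _ _ hxy.2⟩
  · intro x y hxy
    simp only [Prod.mk.injEq] at hxy ⊢
    exact ⟨h' _ _ hxy.1, h' _ _ hxy.2⟩

theorem bf_split (U : FreeGroup (Fin r) → X → X) (hU : PmpAct μ U) {l : X → α} (hl : IsLab μ l)
    {c : X → γ} (hc : Finer l c) (i : Fin r) :
    BF μ U (fun x => (l x, c (U (FreeGroup.of i) x))) ≤ BF μ U l ∧
    BF μ U (fun x => (l x, c (U (FreeGroup.of i)⁻¹ x))) ≤ BF μ U l := by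
  let _ := actOfP U hU
  have hact : ∀ g : FreeGroup (Fin r), MeasurePreserving (fun x : X => g • x) μ μ := hU.mp
  have key : ∀ g : FreeGroup (Fin r), g ∈ Gs r → g ≠ 1 →
      BF μ U (fun x => (l x, c (U g x))) ≤ BF μ U l := by
    intro g hg hg1
    have hE : (univ : Set X) ⊆ CayD X r g := by
      intro x _
      exact (mem_Gs g).mp hg
    obtain ⟨h1, h2⟩ := F_split hact (CayD X r) (Gs r) (cayD_GF (Gs r) (le_refl _)) hl g
      (fg_inv_ne g hg1) univ MeasurableSet.univ hE (fun x y _ => by simp) hc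
    have h3 := BF_eq_F hact (Gs r) (le_refl _) hl
    have h4 := BF_eq_F hact (Gs r) (le_refl _) h1
    have h5 : BF μ U (fun x => (l x, c (U g x))) =
        BF μ U (fun x => (l x, onSet univ (fun y => c (g • y)) x)) := by
      apply BF_congr
      · intro x y hxy
        simp only [Prod.mk.injEq, onSet, mem_univ, if_true] at hxy ⊢
        refine ⟨hxy.1, ?_⟩
        have : c (g • x) = c (g • y) := hxy.2
        rw [this]
      · intro x y hxy
        simp only [Prod.mk.injEq, onSet, mem_univ, if_true, Option.some.injEq] at hxy ⊢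
        exact hxy
    rw [h5]
    have e3 : BF μ U l = F μ (Gs r) (CayD X r) l := h3
    have e4 : BF μ U (fun x => (l x, onSet univ (fun y => c (g • y)) x)) =
      F μ (Gs r) (CayD X r) (fun x => (l x, onSet univ (fun y => c (g • y)) x)) := h4
    rw [e3, e4]
    exact h2
  refine ⟨key _ ((mem_Gs _).mpr ⟨i, Or.inl rfl⟩) (FreeGroup.of_ne_one i),
    key _ ((mem_Gs _).mpr ⟨i, Or.inr rfl⟩) ?_⟩
  intro h
  exact FreeGroup.of_ne_one i (inv_eq_one.mp h)

theorem bf_join (U : FreeGroup (Fin r) → X → X) (hU : PmpAct μ U) {l : X → α} (hl : IsLab μ l)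
    {c : X → γ} (hc : IsLab μ c) :
    BF μ U (fun x => (l x, c x)) ≤ BF μ U l + (ent μ (fun x => (l x, c x)) - ent μ l) := by
  let _ := actOfP U hU
  have hact : ∀ g : FreeGroup (Fin r), MeasurePreserving (fun x : X => g • x) μ μ := hU.mp
  have h1 := F_join hact (CayD X r) (Gs r) (cayD_GF (Gs r) (le_refl _)) hl hc
  have h3 := BF_eq_F hact (Gs r) (le_refl _) hl
  have h4 := BF_eq_F hact (Gs r) (le_refl _) (lab_pair hl hc).1
  have e3 : BF μ U l = F μ (Gs r) (CayD X r) l := h3
  have e4 : BF μ U (fun x => (l x, c x)) = F μ (Gs r) (CayD X r) (fun x => (l x, c x)) := h4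
  rw [e3, e4]
  exact h1

end
end Pool.Agent.TH722.FI
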