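import Pool.Agent.TH722.AF.Defs
import Pool.Agent.TH722.AF.Base
import Pool.Agent.TH395.AF_BALL
import Pool.Agent.TH554.AF_REL
import Pool.Agent.TH395.AF_AR
import Pool.Agent.TH209.AF.Lim
import Pool.Agent.TH209.AF.Prod
import Pool.Agent.TH111.AF_COMPACT
import Pool.Agent.TH395.AF_CTBL
import Pool.Agent.TH554.AF_GENB
import Pool.Agent.TH209.AF.Dual
namespace Pool.Agent.TH722.AF.Jobs
open MeasureTheory Set Filter Pool.Agent.TH722.FI Pool.Agent.TH722.AF
open scoped Topology ENNReal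

section A
variable {r : ℕ} {X : Type*} [MeasurableSpace X] {μ : Measure X} [IsProbabilityMeasure μ]
  {α β γ : Type*}

-- BASE
theorem cond_mono {p : X → α} {q : X → β} {c : X → γ} (hp : IsLab μ p) (hq : IsLab μ q)
    (hc : IsLab μ c) (h : Finer p q) :
    ent μ (fun x => (p x, c x)) - ent μ p ≤ ent μ (fun x => (q x, c x)) - ent μ q := Pool.Agent.TH722.FI.cond_mono hp hq hc h
theorem bf_join (T : FreeGroup (Fin r) → X → X) (hT : PmpAct μ T) {l : X → α} (hl : IsLab μ l)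
    {c : X → γ} (hc : IsLab μ c) :
    BF μ T (fun x => (l x, c x)) ≤ BF μ T l + (ent μ (fun x => (l x, c x)) - ent μ l) := Pool.Agent.TH722.FI.bf_join T hT hl hc
theorem bf_split (T : FreeGroup (Fin r) → X → X) (hT : PmpAct μ T) {l : X → α} (hl : IsLab μ l)
    {c : X → γ} (hc : Finer l c) (i : Fin r) :
    BF μ T (fun x => (l x, c (T (FreeGroup.of i) x))) ≤ BF μ T l ∧
    BF μ T (fun x => (l x, c (T (FreeGroup.of i)⁻¹ x))) ≤ BF μ T l := Pool.Agent.TH722.FI.bf_split T hT hl hc i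

-- BALL
theorem ball_lab (T : FreeGroup (Fin r) → X → X) (hT : PmpAct μ T) {c : X → γ} (hc : IsLab μ c)
    (n : ℕ) : IsLab μ (ballLab T c n) ∧ Finer (ballLab T c (n + 1)) (ballLab T c n) ∧
      Finer (ballLab T c n) c ∧ ent μ (ballLab T c 0) = ent μ c := Pool.Agent.TH395.AFB.ball_lab T hT hc n
theorem ball_split (T : FreeGroup (Fin r) → X → X) (hT : PmpAct μ T) {l : X → α} (hl : IsLab μ l)
    {c : X → γ} (hc : Finer l c) (n : ℕ) :
    BF μ T (fun x => (l x, ballLab T c n x)) ≤ BF μ T l := Pool.Agent.TH395.AFB.ball_split T hT hl hc n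
theorem bf_cont (T : FreeGroup (Fin r) → X → X) (hT : PmpAct μ T) {l : X → α} (hl : IsLab μ l)
    {p : X → γ} (hp : IsLab μ p) :
    BF μ T p ≤ BF μ T (fun x => (p x, l x)) +
      (2 * (r : ℝ) - 1) * (ent μ (fun x => (p x, l x)) - ent μ p) := Pool.Agent.TH395.AFB.bf_cont T hT hl hp

-- REL
theorem rel_indep (T : FreeGroup (Fin r) → X → X) (hT : PmpAct μ T) {l : X → α} (hl : IsLab μ l)
    {l' : X → β} (hl' : IsLab μ l') {q : X → γ} (hq : IsLab μ q)
    (hg : EGen μ (fun n x => (ballLab T l n x, ballLab T q n x)))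
    (hg' : EGen μ (fun n x => (ballLab T l' n x, ballLab T q n x)))
    (n : ℕ) (ε : ℝ) (hε : 0 < ε) :
    ∃ n', ∀ k ≥ n', ∃ m0, ∀ m ≥ m0,
      BF μ T (fun x => (ballLab T l' k x, ballLab T q m x)) ≤
        BF μ T (fun x => (ballLab T l n x, ballLab T q m x)) + ε := Pool.Agent.TH554.AFREL.rel_indep T hT hl hl' hq hg hg' n ε hε

-- AR
theorem abramov_rohlin (T : FreeGroup (Fin r) → X → X) (hT : PmpAct μ T) {l : X → α}
    (hl : IsLab μ l) {q : X → γ} (hq : IsLab μ q) (hg : EGen μ (fun n x => ballLab T l n x)) :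
    (∀ n k : ℕ, ∀ ε > 0, ∃ n', BF μ T (ballLab T l n') ≤
      BF μ T (fun x => (ballLab T l n x, ballLab T q k x)) + ε) ∧
    (∀ n : ℕ, ∀ ε > 0, ∃ n', ∀ m : ℕ,
      BF μ T (fun x => (ballLab T l n' x, ballLab T q m x)) ≤ BF μ T (ballLab T l n) + ε) := Pool.Agent.TH395.AFB.abramov_rohlin T hT hl hq hg

-- GENB
theorem gen_egen (T : FreeGroup (Fin r) → X → X) (hT : PmpAct μ T) {l : X → α} (hl : IsLab μ l)
    {q : X → γ} (hq : IsLab μ q)
    (hgen : ∀ B : Set X, MeasurableSet B → ∃ B' : Set X,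
      MeasurableSet[⨆ g, (MeasurableSpace.comap (fun x => l (T g x)) ⊤ ⊔
        MeasurableSpace.comap (fun x => q (T g x)) ⊤)] B' ∧ B =ᵐ[μ] B') :
    EGen μ (fun n x => (ballLab T l n x, ballLab T q n x)) := Pool.Agent.TH554.AFGENB.gen_egen T hT hl hq hgen
theorem gen_egen' (T : FreeGroup (Fin r) → X → X) (hT : PmpAct μ T) {l : X → α} (hl : IsLab μ l)
    (hgen : Gen μ T l) : EGen μ (fun n x => ballLab T l n x) := Pool.Agent.TH554.AFGENB.gen_egen' T hT hl hgen
end A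

section B
-- LIM
theorem lim_cond {Ω₁ Ω₂ κ : Type*} [MeasurableSpace Ω₁] [MeasurableSpace Ω₂] {P₁ : Measure Ω₁}
    {P₂ : Measure Ω₂} [IsProbabilityMeasure P₁] [IsProbabilityMeasure P₂] [Finite κ]
    (Ψ : Ω₁ × Ω₂ → κ) (hΨ : ∀ v, MeasurableSet {p | Ψ p = v})
    {Q : ℕ → Type*} (q : ∀ m, Ω₁ → Q m) (hq : ∀ m, IsLab P₁ (q m))
    (hmono : ∀ m, Finer (q (m + 1)) (q m))
    (hmeas : ∀ v, ∃ f : Ω₁ → ℝ, Measurable[⨆ m, MeasurableSpace.comap (q m) ⊤] f ∧
      (fun b => P₂.real {c | Ψ (b, c) = v}) =ᵐ[P₁] f) :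
    Tendsto (fun m => ent (P₁.prod P₂) (fun p => (Ψ p, q m p.1)) - ent P₁ (q m)) atTop
      (𝓝 (∫ b, ent P₂ (fun c => Ψ (b, c)) ∂P₁)) := Pool.Agent.TH209.AF.lim_cond Ψ hΨ q hq hmono hmeas

-- PROD
theorem bf_prod {r : ℕ} {Ω₁ Ω₂ κ₁ κ₂ : Type*} [MeasurableSpace Ω₁] [MeasurableSpace Ω₂]
    {P₁ : Measure Ω₁} {P₂ : Measure Ω₂} [IsProbabilityMeasure P₁] [IsProbabilityMeasure P₂]
    (T₁ : FreeGroup (Fin r) → Ω₁ → Ω₁) (T₂ : FreeGroup (Fin r) → Ω₂ → Ω₂)
    (h₁ : PmpAct P₁ T₁) (h₂ : PmpAct P₂ T₂) (a : Ω₁ → κ₁) (b : Ω₂ → κ₂)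
    (ha : IsLab P₁ a) (hb : IsLab P₂ b) :
    PmpAct (P₁.prod P₂) (fun g p => (T₁ g p.1, T₂ g p.2)) ∧
    IsLab (P₁.prod P₂) (fun p => (a p.1, b p.2)) ∧
    ent (P₁.prod P₂) (fun p => (a p.1, b p.2)) = ent P₁ a + ent P₂ b ∧
    BF (P₁.prod P₂) (fun g p => (T₁ g p.1, T₂ g p.2)) (fun p => (a p.1, b p.2)) =
      BF P₁ T₁ a + BF P₂ T₂ b := Pool.Agent.TH209.AF.bf_prod T₁ T₂ h₁ h₂ a b ha hb
end B

section C
universe u
-- COMPACT
theorem haar_map {L M : Type*} [CommGroup L] [TopologicalSpace L] [IsTopologicalGroup L]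
    [CompactSpace L] [T2Space L] [MeasurableSpace L] [BorelSpace L]
    [CommGroup M] [TopologicalSpace M] [IsTopologicalGroup M]
    [CompactSpace M] [T2Space M] [MeasurableSpace M] [BorelSpace M]
    (π : L →ₜ* M) (hπ : Function.Surjective π) :
    MeasurePreserving π (MeasureTheory.Measure.haarMeasure (⊤ : TopologicalSpace.PositiveCompacts L))
      (MeasureTheory.Measure.haarMeasure (⊤ : TopologicalSpace.PositiveCompacts M)) := Pool.Agent.TH111.AFC.haar_map π hπ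
theorem compact_setup {K L M : Type*} [CommGroup K] [TopologicalSpace K] [IsTopologicalGroup K]
    [CompactSpace K] [T2Space K] [SecondCountableTopology K] [MeasurableSpace K] [BorelSpace K]
    [CommGroup L] [TopologicalSpace L] [IsTopologicalGroup L]
    [CompactSpace L] [T2Space L] [SecondCountableTopology L] [MeasurableSpace L] [BorelSpace L]
    [CommGroup M] [TopologicalSpace M] [IsTopologicalGroup M]
    [CompactSpace M] [T2Space M] [SecondCountableTopology M] [MeasurableSpace M] [BorelSpace M]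
    (ι : K →ₜ* L) (π : L →ₜ* M) (hι : Function.Injective ι) (hπ : Function.Surjective π)
    (hex : ∀ x, π x = 1 ↔ ∃ k, ι k = x)
    (μK : Measure K) (μL : Measure L) [μK.IsHaarMeasure] [μL.IsHaarMeasure]
    [IsProbabilityMeasure μK] [IsProbabilityMeasure μL] :
    MeasurePreserving (fun p : L × K => p.1 * ι p.2) (μL.prod μK) μL ∧
    (∃ d : L × L → K, Measurable d ∧ ∀ b c, d (b, b * ι c) = c) ∧
    (∀ E : Set L, MeasurableSet E → ∃ f : M → ℝ, Measurable f ∧
      ∀ b, μK.real {c | b * ι c ∈ E} = f (π b)) := Pool.Agent.TH111.AFC.compact_setup ι π hι hπ hex μK μL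

-- CTBL
theorem countable_of_gen {A : Type u} [AddCommGroup A] [TopologicalSpace A] [DiscreteTopology A]
    {G : Type*} [Countable G] (T : G → Dual A → Dual A)
    (hT : ∀ g, MeasurePreserving (T g) (haar A) (haar A)) {k : ℕ} (α : Dual A → Fin k)
    (hα : Measurable α)
    (hgen : ∀ B : Set (Dual A), MeasurableSet B → ∃ B' : Set (Dual A),
      MeasurableSet[⨆ g, MeasurableSpace.comap (fun x => α (T g x)) ⊤] B' ∧ B =ᵐ[haar A] B') :
    Countable A := Pool.Agent.TH395.AFC.countable_of_gen T hT α hα hgen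
theorem dual_secondCountable {A : Type u} [AddCommGroup A] [TopologicalSpace A]
    [DiscreteTopology A] [Countable A] : SecondCountableTopology (Dual A) := Pool.Agent.TH395.AFC.dual_secondCountable

-- DUAL
theorem act_pmp {r : ℕ} {A : Type u} [AddCommGroup A] [TopologicalSpace A]
    [DiscreteTopology A] [Module (MonoidAlgebra ℤ (FreeGroup (Fin r))) A] :
    IsProbabilityMeasure (haar A) ∧ (haar A).IsHaarMeasure ∧
    PmpAct (haar A) (act : FreeGroup (Fin r) → Dual A → Dual A) := Pool.Agent.TH209.AF.act_pmp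
theorem dual_exact {A B C : Type u} [AddCommGroup A] [TopologicalSpace A]
    [DiscreteTopology A] [AddCommGroup B] [TopologicalSpace B] [DiscreteTopology B]
    [AddCommGroup C] [TopologicalSpace C] [DiscreteTopology C]
    (i : A →+ B) (p : B →+ C) (hi : Function.Injective i) (hp : Function.Surjective p)
    (hex : ∀ b, p b = 0 ↔ ∃ a, i a = b) :
    Function.Injective (dualHom p) ∧ Function.Surjective (dualHom i) ∧
    (∀ x : Dual B, dualHom i x = 1 ↔ ∃ k : Dual C, dualHom p k = x) := Pool.Agent.TH209.AF.dual_exact i p hi hp hex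
theorem dual_equiv {r : ℕ} {A B : Type u} [AddCommGroup A] [TopologicalSpace A]
    [DiscreteTopology A] [AddCommGroup B] [TopologicalSpace B] [DiscreteTopology B]
    [Module (MonoidAlgebra ℤ (FreeGroup (Fin r))) A]
    [Module (MonoidAlgebra ℤ (FreeGroup (Fin r))) B]
    (i : A →ₗ[MonoidAlgebra ℤ (FreeGroup (Fin r))] B) (g : FreeGroup (Fin r)) (x : Dual B) :
    dualHom i.toAddMonoidHom (act g x) = act g (dualHom i.toAddMonoidHom x) := Pool.Agent.TH209.AF.dual_equiv i g x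
end C
end Pool.Agent.TH722.AF.Jobs
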