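import Pool.Agent.TH722.AF.Base
import Pool.Agent.TH722.AF.JAF
namespace Pool.Agent.TH722.AF
open MeasureTheory Set Filter Pool.Agent.TH722.FI Jobs
open scoped Topology ENNReal

/-- a function with values in `[0,1]` is a.e. equal to one measurable for `m`, if all measurable
sets are a.e. equal to `m`-measurable ones -/
theorem ae_fun {X : Type*} [mX : MeasurableSpace X] {μ : Measure X} (m : MeasurableSpace X)
    (f : X → ℝ) (h : ∀ q : ℚ, ∃ B' : Set X, MeasurableSet[m] B' ∧ {x | (q : ℝ) < f x} =ᵐ[μ] B')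
    (h0 : ∀ x, 0 ≤ f x) (h1 : ∀ x, f x ≤ 1) :
    ∃ g : X → ℝ, Measurable[m] g ∧ f =ᵐ[μ] g := by
  classical
  choose S hSm hS using h
  let F : ℚ → X → ℝ := fun q x => if (x ∈ S q ∧ 0 ≤ q ∧ q ≤ 1) then (q : ℝ) else 0
  have hFm : ∀ q, Measurable[m] (F q) := by
    intro q
    have : F q = (S q).indicator (fun _ => if (0 ≤ q ∧ q ≤ 1) then (q : ℝ) else 0) := by
      funext x
      simp only [F, Set.indicator]
      by_cases hx : x ∈ S q <;> simp [hx]
    rw [this]
    exact Measurable.indicator (@measurable_const _ _ _ m _) (hSm q)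
  refine ⟨fun x => ⨆ q, F q x, Measurable.iSup (mδ := m) hFm, ?_⟩
  have hall : ∀ᵐ x ∂μ, ∀ q : ℚ, ((q : ℝ) < f x ↔ x ∈ S q) := by
    rw [ae_all_iff]
    intro q
    filter_upwards [hS q] with x hx
    exact Iff.of_eq hx
  filter_upwards [hall] with x hx
  have hbdd : BddAbove (range fun q => F q x) := by
    refine ⟨1, ?_⟩
    rintro _ ⟨q, rfl⟩
    simp only [F]
    split_ifs with hq
    · exact_mod_cast hq.2.2
    · exact zero_le_one
  apply le_antisymm
  · refine le_of_forall_lt fun c hc => ?_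
    rcases lt_or_ge c 0 with hc0 | hc0
    · refine lt_of_lt_of_le hc0 ?_
      have : F 2 x = 0 := by simp only [F]; rw [if_neg]; rintro ⟨_, _, h⟩; norm_num at h
      rw [← this]; exact le_ciSup hbdd 2
    · obtain ⟨q, hq1, hq2⟩ := exists_rat_btwn hc
      refine lt_of_lt_of_le hq1 ?_
      have h3 : F q x = q := by
        simp only [F]
        rw [if_pos]
        refine ⟨(hx q).mp hq2, ?_, ?_⟩
        · have : (0 : ℝ) ≤ q := hc0.trans hq1.le
          exact_mod_cast this
        · have : (q : ℝ) ≤ 1 := hq2.le.trans (h1 x)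
          exact_mod_cast this
      rw [← h3]; exact le_ciSup hbdd q
  · refine ciSup_le fun q => ?_
    simp only [F]
    split_ifs with hq
    · exact ((hx q).mpr hq.1).le
    · exact h0 x

section
variable {r : ℕ} {X : Type*} [MeasurableSpace X] {μ : Measure X} {α β γ : Type*}

/-- the sigma-algebra of a ball label sequence contains that of all translates -/
theorem comap_le_ball (T : FreeGroup (Fin r) → X → X) (l : X → α) :
    (⨆ g, MeasurableSpace.comap (fun x => l (T g x)) ⊤) ≤
      ⨆ n, MeasurableSpace.comap (ballLab T l n) ⊤ := by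
  refine iSup_le fun g => ?_
  refine le_trans ?_ (le_iSup _ g⁻¹.norm)
  rintro s ⟨t, -, rfl⟩
  refine ⟨{f | f ⟨g⁻¹, le_rfl⟩ ∈ t}, trivial, ?_⟩
  ext x
  simp [ballLab]

/-- difference of Bowen functionals as conditional entropies -/
theorem bf_sub (T : FreeGroup (Fin r) → X → X) (p : X → α) (q : X → β) :
    BF μ T (fun x => (p x, q x)) - BF μ T q =
      (1 - 2 * (r : ℝ)) * (ent μ (fun x => (p x, q x)) - ent μ q) +
      ∑ i : Fin r, (ent μ (fun x => ((p x, p (T (FreeGroup.of i)⁻¹ x)),
        (q x, q (T (FreeGroup.of i)⁻¹ x)))) - ent μ (fun x => (q x, q (T (FreeGroup.of i)⁻¹ x)))) := by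
  unfold BF
  rw [Finset.sum_sub_distrib]
  have : ∀ i : Fin r, ent μ (fun x => ((p x, q x), p (T (FreeGroup.of i)⁻¹ x),
      q (T (FreeGroup.of i)⁻¹ x))) = ent μ (fun x => ((p x, p (T (FreeGroup.of i)⁻¹ x)),
        (q x, q (T (FreeGroup.of i)⁻¹ x)))) := by
    intro i
    unfold ent info mass
    congr 1
    funext x
    congr 3
    ext y
    simp only [Prod.mk.injEq, mem_ofPred_eq]
    tauto
  simp_rw [this]
  ring

end

end Pool.Agent.TH722.AF
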