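import Pool.Agent.TH722.AF.Core
namespace Pool.Agent.TH722.AF
open MeasureTheory Set Filter Pool.Agent.TH722.FI Jobs
open scoped Topology ENNReal

/-- extension data: fibre `K`, total space `L`, factor `M` -/
structure Ext {r : ℕ} {L K M : Type*} [MeasurableSpace L] [MeasurableSpace K] [MeasurableSpace M]
    (μL : Measure L) (μK : Measure K) (μM : Measure M)
    (TL : FreeGroup (Fin r) → L → L) (TK : FreeGroup (Fin r) → K → K)
    (TM : FreeGroup (Fin r) → M → M) (π : L → M) (t : L → K → L) (d : L × L → K) : Prop where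
  aL : PmpAct μL TL
  aK : PmpAct μK TK
  aM : PmpAct μM TM
  πmp : MeasurePreserving π μL μM
  πeq : ∀ g b, π (TL g b) = TM g (π b)
  tmp : MeasurePreserving (fun p : L × K => t p.1 p.2) (μL.prod μK) μL
  teq : ∀ g b c, t (TL g b) (TK g c) = TL g (t b c)
  tπ : ∀ b c, π (t b c) = π b
  dm : Measurable d
  dt : ∀ b c, d (b, t b c) = c
  law : ∀ E : Set L, MeasurableSet E → ∃ f : M → ℝ, Measurable f ∧
    ∀ b, μK.real {c | t b c ∈ E} = f (π b)

section
variable {r : ℕ} {L K M : Type*} [MeasurableSpace L] [MeasurableSpace K] [MeasurableSpace M]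
    {μL : Measure L} {μK : Measure K} {μM : Measure M}
    [IsProbabilityMeasure μL] [IsProbabilityMeasure μK] [IsProbabilityMeasure μM]
    {TL : FreeGroup (Fin r) → L → L} {TK : FreeGroup (Fin r) → K → K}
    {TM : FreeGroup (Fin r) → M → M} {π : L → M} {t : L → K → L} {d : L × L → K}

theorem limA (hE : Ext μL μK μM TL TK TM π t d) {κ : Type*} [Finite κ] (ψ : L → κ)
    (hψ : ∀ v, MeasurableSet {x | ψ x = v}) {Q : ℕ → Type*} (q : ∀ m, L → Q m)
    (hq : ∀ m, IsLab μL (q m)) (hmono : ∀ m, Finer (q (m + 1)) (q m))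
    (hgen : ∀ B : Set L, MeasurableSet B → ∃ B' : Set L,
      MeasurableSet[⨆ m, MeasurableSpace.comap (q m) ⊤] B' ∧ B =ᵐ[μL] B') :
    Tendsto (fun m => ent (μL.prod μK) (fun p => (ψ (t p.1 p.2), q m p.1)) - ent μL (q m)) atTop
      (𝓝 (∫ b, ent μK (fun c => ψ (t b c)) ∂μL)) := by
  refine lim_cond (fun p : L × K => ψ (t p.1 p.2)) (fun v => hE.tmp.measurable (hψ v)) q hq hmono
    (fun v => ?_)
  have hm : Measurable (fun b => μK.real {c | ψ (t b c) = v}) := by
    have h1 : MeasurableSet {p : L × K | ψ (t p.1 p.2) = v} := hE.tmp.measurable (hψ v)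
    exact (measurable_measure_prodMk_left h1).ennreal_toReal
  obtain ⟨g, hg, hgf⟩ := ae_fun (μ := μL) (⨆ m, MeasurableSpace.comap (q m) ⊤)
    (fun b => μK.real {c | ψ (t b c) = v})
    (fun s => hgen _ (measurableSet_lt measurable_const hm))
    (fun _ => measureReal_nonneg) (fun _ => measureReal_le_one)
  exact ⟨g, hg, hgf⟩

theorem limB (hE : Ext μL μK μM TL TK TM π t d) {κ : Type*} [Finite κ] (ψ : L → κ)
    (hψ : ∀ v, MeasurableSet {x | ψ x = v}) {Q : ℕ → Type*} (q : ∀ m, L → Q m)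
    (hq : ∀ m, IsLab μL (q m)) (hmono : ∀ m, Finer (q (m + 1)) (q m))
    (hqt : ∀ m b c, q m (t b c) = q m b)
    (hgen : ∀ B : Set M, MeasurableSet B → ∃ B' : Set L,
      MeasurableSet[⨆ m, MeasurableSpace.comap (q m) ⊤] B' ∧ (π ⁻¹' B : Set L) =ᵐ[μL] B') :
    Tendsto (fun m => ent μL (fun x => (ψ x, q m x)) - ent μL (q m)) atTop
      (𝓝 (∫ b, ent μK (fun c => ψ (t b c)) ∂μL)) := by
  have hψl : IsLab μL ψ := Pool.Agent.TH480.FI.lab_finite hψ (Set.toFinite _)
  have h1 : ∀ m, ent μL (fun x => (ψ x, q m x)) =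
      ent (μL.prod μK) (fun p => (ψ (t p.1 p.2), q m p.1)) := by
    intro m
    rw [← (Pool.Agent.TH480.FI.lab_comp hE.tmp (Pool.Agent.TH480.FI.lab_pair hψl (hq m)).1).2]
    congr 1
    funext p
    simp only [hqt]
  simp_rw [h1]
  refine lim_cond (fun p : L × K => ψ (t p.1 p.2)) (fun v => hE.tmp.measurable (hψ v)) q hq hmono
    (fun v => ?_)
  obtain ⟨f, hf, hfe⟩ := hE.law {x | ψ x = v} (hψ v)
  have e1 : (fun b => μK.real {c | ψ (t b c) = v}) = fun b => f (π b) := by
    funext b; exact hfe b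
  obtain ⟨g, hg, hgf⟩ := ae_fun (μ := μL) (⨆ m, MeasurableSpace.comap (q m) ⊤)
    (fun b => μK.real {c | ψ (t b c) = v})
    (fun s => by
      rw [show {x | (s : ℝ) < μK.real {c | ψ (t x c) = v}} = π ⁻¹' {y | (s : ℝ) < f y} by
        ext x; simp only [mem_preimage, mem_ofPred_eq]; rw [← hfe x]; rfl]
      exact hgen _ (measurableSet_lt measurable_const hf))
    (fun _ => measureReal_nonneg) (fun _ => measureReal_le_one)
  exact ⟨g, hg, hgf⟩

end
end Pool.Agent.TH722.AF
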