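import Pool.Agent.TH722.AF.Core2
namespace Pool.Agent.TH722.AF
open MeasureTheory Set Filter Pool.Agent.TH722.FI Jobs
open scoped Topology ENNReal
open Pool.Agent.TH480.FI (lab_pair lab_of_finer lab_comp lab_finite)

theorem ball_finite (r n : ℕ) : Finite {k : FreeGroup (Fin r) // k.norm ≤ n} := by
  have h : ∀ l : List (Fin r × Bool), l ∈ {l : List (Fin r × Bool) | l.length ≤ n} → True := by
    intro _ _; trivial
  have hf : {l : List (Fin r × Bool) | l.length ≤ n}.Finite := List.finite_length_le _ n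
  have hinj : Function.Injective (fun k : {k : FreeGroup (Fin r) // k.norm ≤ n} =>
      (⟨k.1.toWord, k.2⟩ : {l : List (Fin r × Bool) // l ∈ {l : List (Fin r × Bool) | l.length ≤ n}})) := by
    intro a b hab
    have := congrArg Subtype.val hab
    exact Subtype.ext (FreeGroup.toWord_injective this)
  have := hf.to_subtype
  exact Finite.of_injective _ hinj

section
variable {r : ℕ} {L K M : Type*} [MeasurableSpace L] [MeasurableSpace K] [MeasurableSpace M]
    {μL : Measure L} {μK : Measure K} {μM : Measure M}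
    [IsProbabilityMeasure μL] [IsProbabilityMeasure μK] [IsProbabilityMeasure μM]
    {TL : FreeGroup (Fin r) → L → L} {TK : FreeGroup (Fin r) → K → K}
    {TM : FreeGroup (Fin r) → M → M} {π : L → M} {t : L → K → L} {d : L × L → K}

/-- the product action -/
def TO (TL : FreeGroup (Fin r) → L → L) (TK : FreeGroup (Fin r) → K → K)
    (g : FreeGroup (Fin r)) (p : L × K) : L × K := (TL g p.1, TK g p.2)

/-- the common limit -/
noncomputable def DD (μL : Measure L) (μK : Measure K) (TL : FreeGroup (Fin r) → L → L)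
    (t : L → K → L) {κ : Type*} (ψ : L → κ) : ℝ :=
  (1 - 2 * (r : ℝ)) * (∫ b, ent μK (fun c => ψ (t b c)) ∂μL) +
    ∑ i : Fin r, ∫ b, ent μK (fun c => (ψ (t b c), ψ (TL (FreeGroup.of i)⁻¹ (t b c)))) ∂μL

theorem pair_meas {X α β : Type*} [MeasurableSpace X] {a : X → α} {b : X → β}
    (ha : ∀ v, MeasurableSet {x | a x = v}) (hb : ∀ v, MeasurableSet {x | b x = v}) :
    ∀ v, MeasurableSet {x | (a x, b x) = v} := by
  rintro ⟨u, v⟩
  have : {x | (a x, b x) = (u, v)} = {x | a x = u} ∩ {x | b x = v} := by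
    ext x; simp
  rw [this]
  exact (ha u).inter (hb v)

theorem comap_mono_pair {X : Type*} {Q : ℕ → Type*} (q : ∀ m, X → Q m) {Q' : ℕ → Type*}
    (q' : ∀ m, X → Q' m) :
    (⨆ m, MeasurableSpace.comap (q m) ⊤) ≤
      ⨆ m, MeasurableSpace.comap (fun x => (q m x, q' m x)) ⊤ := by
  refine iSup_mono fun m => ?_
  rintro s ⟨u, -, rfl⟩
  exact ⟨{p | p.1 ∈ u}, trivial, rfl⟩

theorem dlim1 (hE : Ext μL μK μM TL TK TM π t d) {κ : Type*} [Finite κ] (ψ : L → κ)
    (hψ : ∀ v, MeasurableSet {x | ψ x = v}) {Q : ℕ → Type*} (q : ∀ m, L → Q m)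
    (hq : ∀ m, IsLab μL (q m)) (hmono : ∀ m, Finer (q (m + 1)) (q m))
    (hgen : ∀ B : Set L, MeasurableSet B → ∃ B' : Set L,
      MeasurableSet[⨆ m, MeasurableSpace.comap (q m) ⊤] B' ∧ B =ᵐ[μL] B') :
    Tendsto (fun m => BF (μL.prod μK) (TO TL TK) (fun p => (ψ (t p.1 p.2), q m p.1)) -
      BF μL TL (q m)) atTop (𝓝 (DD μL μK TL t ψ)) := by
  have hfst : MeasurePreserving (Prod.fst : L × K → L) (μL.prod μK) μL := measurePreserving_fst
  have hBFq : ∀ m, BF μL TL (q m) = BF (μL.prod μK) (TO TL TK) (fun p => q m p.1) := by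
    intro m
    unfold BF
    rw [← (lab_comp hfst (hq m)).2]
    congr 1
    refine Finset.sum_congr rfl fun i _ => ?_
    exact (lab_comp hfst (lab_pair (hq m) (lab_comp (hE.aL.mp _) (hq m)).1).1).2.symm
  simp_rw [hBFq]
  have hsub := fun m => bf_sub (μ := μL.prod μK) (TO TL TK) (fun p => ψ (t p.1 p.2))
    (fun p => q m p.1)
  simp_rw [hsub]
  unfold DD
  refine Tendsto.add (Tendsto.const_mul _ ?_) (tendsto_finsetSum _ fun i _ => ?_)
  · have h1 := limA hE ψ hψ q hq hmono hgen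
    refine h1.congr fun m => ?_
    rw [(lab_comp hfst (hq m)).2]
  · have hq2 : ∀ m, IsLab μL (fun x => (q m x, q m (TL (FreeGroup.of i)⁻¹ x))) :=
      fun m => (lab_pair (hq m) (lab_comp (hE.aL.mp _) (hq m)).1).1
    have h1 := limA hE (fun x => (ψ x, ψ (TL (FreeGroup.of i)⁻¹ x)))
      (pair_meas hψ (fun v => (hE.aL.mp _).measurable (hψ v)))
      (fun m x => (q m x, q m (TL (FreeGroup.of i)⁻¹ x))) hq2
      (fun m x y h => by
        simp only [Prod.mk.injEq] at h ⊢
        exact ⟨hmono m _ _ h.1, hmono m _ _ h.2⟩)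
      (fun B hB => by
        obtain ⟨B', hB', hBB⟩ := hgen B hB
        exact ⟨B', comap_mono_pair q (fun m x => q m (TL (FreeGroup.of i)⁻¹ x)) _ hB', hBB⟩)
    refine h1.congr fun m => ?_
    have e := (lab_comp hfst (hq2 m)).2
    have e2 : ent (μL.prod μK) (fun p : L × K => (q m p.1, q m ((TO TL TK (FreeGroup.of i)⁻¹ p).1)))
      = ent μL (fun x => (q m x, q m (TL (FreeGroup.of i)⁻¹ x))) := e
    rw [e2]
    congr 2
    funext p
    simp only [TO, hE.teq]

theorem dlim2 (hE : Ext μL μK μM TL TK TM π t d) {κ : Type*} [Finite κ] (ψ : L → κ)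
    (hψ : ∀ v, MeasurableSet {x | ψ x = v}) {Q : ℕ → Type*} (q : ∀ m, L → Q m)
    (hq : ∀ m, IsLab μL (q m)) (hmono : ∀ m, Finer (q (m + 1)) (q m))
    (hqt : ∀ m b b', π b = π b' → q m b = q m b')
    (hgen : ∀ B : Set M, MeasurableSet B → ∃ B' : Set L,
      MeasurableSet[⨆ m, MeasurableSpace.comap (q m) ⊤] B' ∧ (π ⁻¹' B : Set L) =ᵐ[μL] B') :
    Tendsto (fun m => BF μL TL (fun x => (ψ x, q m x)) - BF μL TL (q m)) atTop
      (𝓝 (DD μL μK TL t ψ)) := by
  have hsub := fun m => bf_sub (μ := μL) TL ψ (q m)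
  simp_rw [hsub]
  unfold DD
  refine Tendsto.add (Tendsto.const_mul _ ?_) (tendsto_finsetSum _ fun i _ => ?_)
  · exact limB hE ψ hψ q hq hmono (fun m b c => hqt m _ _ (hE.tπ b c)) hgen
  · have hq2 : ∀ m, IsLab μL (fun x => (q m x, q m (TL (FreeGroup.of i)⁻¹ x))) :=
      fun m => (lab_pair (hq m) (lab_comp (hE.aL.mp _) (hq m)).1).1
    exact limB hE (fun x => (ψ x, ψ (TL (FreeGroup.of i)⁻¹ x)))
      (pair_meas hψ (fun v => (hE.aL.mp _).measurable (hψ v)))
      (fun m x => (q m x, q m (TL (FreeGroup.of i)⁻¹ x))) hq2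
      (fun m x y h => by
        simp only [Prod.mk.injEq] at h ⊢
        exact ⟨hmono m _ _ h.1, hmono m _ _ h.2⟩)
      (fun m b c => by
        simp only [Prod.mk.injEq]
        refine ⟨hqt m _ _ (hE.tπ b c), hqt m _ _ ?_⟩
        rw [hE.πeq, hE.πeq, hE.tπ])
      (fun B hB => by
        obtain ⟨B', hB', hBB⟩ := hgen B hB
        exact ⟨B', comap_mono_pair q (fun m x => q m (TL (FreeGroup.of i)⁻¹ x)) _ hB', hBB⟩)

end
end Pool.Agent.TH722.AF
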