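import Pool.Agent.TH722.AF.Core3
namespace Pool.Agent.TH722.AF
open MeasureTheory Set Filter Pool.Agent.TH722.FI Jobs
open scoped Topology ENNReal
open Pool.Agent.TH480.FI (lab_pair lab_of_finer lab_comp lab_finite)

section
variable {r : ℕ} {X : Type*} [MeasurableSpace X] {μ : Measure X} {α β γ : Type*}

theorem ball_finer (T : FreeGroup (Fin r) → X → X) (l : X → α) {n m : ℕ} (h : n ≤ m) :
    Finer (ballLab T l m) (ballLab T l n) := by
  intro x y hxy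
  funext k
  exact congrFun hxy ⟨k.1, k.2.trans h⟩

theorem bf_anti [IsProbabilityMeasure μ] (T : FreeGroup (Fin r) → X → X) (hT : PmpAct μ T)
    {l : X → α} (hl : IsLab μ l) : Antitone (fun n => BF μ T (ballLab T l n)) := by
  intro n m h
  have h1 := ball_split T hT (ball_lab T hT hl n).1 (ball_lab T hT hl n).2.2.1 m
  refine le_trans (le_of_eq ?_) h1
  apply BF_congr
  · intro x y hxy
    simp only [Prod.mk.injEq]
    exact ⟨ball_finer T l h x y hxy, hxy⟩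
  · intro x y hxy
    simp only [Prod.mk.injEq] at hxy
    exact hxy.2

theorem bf_transfer [IsProbabilityMeasure μ] {Z P : Type*} [MeasurableSpace Z] {m : Measure Z}
    [IsProbabilityMeasure m]
    (T : FreeGroup (Fin r) → Z → Z) (T' : FreeGroup (Fin r) → X → X)
    (j : Z → X) (hj : MeasurePreserving j m μ) (heq : ∀ g z, j (T g z) = T' g (j z))
    (hT'm : ∀ g, MeasurePreserving (T' g) μ μ)
    {l : X → P} (hl : IsLab μ l) :
    BF m T (fun z => l (j z)) = BF μ T' l := by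
  unfold BF
  rw [(lab_comp hj hl).2]
  congr 1
  refine Finset.sum_congr rfl fun i _ => ?_
  have h2 := lab_pair hl (lab_comp (hT'm (FreeGroup.of i)⁻¹) hl).1
  rw [← (lab_comp hj h2.1).2]
  simp only [heq]

/-- the sigma-algebra generated by two labels and an action -/
def genS {Ω κ₁ κ₂ : Type*} (TΩ : FreeGroup (Fin r) → Ω → Ω) (a₁ : Ω → κ₁) (a₂ : Ω → κ₂) :
    MeasurableSpace Ω :=
  ⨆ g, (MeasurableSpace.comap (fun x => a₁ (TΩ g x)) ⊤ ⊔
        MeasurableSpace.comap (fun x => a₂ (TΩ g x)) ⊤)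

/-- generating pairs -/
theorem gen_pair {Ω L₁ L₂ κ₁ κ₂ : Type*} [mΩ : MeasurableSpace Ω] [m₁ : MeasurableSpace L₁]
    [m₂ : MeasurableSpace L₂] {P : Measure Ω} {μ₁ : Measure L₁} {μ₂ : Measure L₂}
    (TΩ : FreeGroup (Fin r) → Ω → Ω) (T₁ : FreeGroup (Fin r) → L₁ → L₁)
    (T₂ : FreeGroup (Fin r) → L₂ → L₂) (f₁ : Ω → L₁) (f₂ : Ω → L₂)
    (h₁ : MeasurePreserving f₁ P μ₁) (h₂ : MeasurePreserving f₂ P μ₂)
    (e₁ : ∀ g x, f₁ (TΩ g x) = T₁ g (f₁ x)) (e₂ : ∀ g x, f₂ (TΩ g x) = T₂ g (f₂ x))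
    (a₁ : L₁ → κ₁) (a₂ : L₂ → κ₂) (g₁ : Gen μ₁ T₁ a₁) (g₂ : Gen μ₂ T₂ a₂)
    (hall : ∀ B : Set Ω, MeasurableSet B → ∃ B₂ : Set (L₁ × L₂), MeasurableSet B₂ ∧
      B = (fun x => (f₁ x, f₂ x)) ⁻¹' B₂) :
    ∀ B : Set Ω, MeasurableSet B → ∃ B' : Set Ω,
      MeasurableSet[genS TΩ (fun x => a₁ (f₁ x)) (fun x => a₂ (f₂ x))] B' ∧ B =ᵐ[P] B' := by
  have c₁ : MeasurableSpace.comap f₁ m₁ ≤
      eventuallyMeasurableSpace (genS TΩ (fun x => a₁ (f₁ x)) (fun x => a₂ (f₂ x))) (ae P) := by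
    rintro s ⟨B, hB, rfl⟩
    obtain ⟨B', hB', hBB⟩ := g₁ B hB
    refine ⟨f₁ ⁻¹' B', ?_, h₁.quasiMeasurePreserving.preimage_ae_eq hBB⟩
    have h1 : MeasurableSet[MeasurableSpace.comap f₁
        (⨆ g, MeasurableSpace.comap (fun x => a₁ (T₁ g x)) ⊤)] (f₁ ⁻¹' B') := ⟨B', hB', rfl⟩
    rw [MeasurableSpace.comap_iSup] at h1
    have hle : (⨆ g, MeasurableSpace.comap f₁ (MeasurableSpace.comap (fun x => a₁ (T₁ g x)) ⊤)) ≤
        genS TΩ (fun x => a₁ (f₁ x)) (fun x => a₂ (f₂ x)) := by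
      refine iSup_mono fun g => ?_
      rw [MeasurableSpace.comap_comp]
      have : (fun x => a₁ (T₁ g x)) ∘ f₁ = fun x => a₁ (f₁ (TΩ g x)) := by
        funext x; simp [e₁]
      rw [this]
      exact le_sup_left
    exact hle _ h1
  have c₂ : MeasurableSpace.comap f₂ m₂ ≤
      eventuallyMeasurableSpace (genS TΩ (fun x => a₁ (f₁ x)) (fun x => a₂ (f₂ x))) (ae P) := by
    rintro s ⟨B, hB, rfl⟩
    obtain ⟨B', hB', hBB⟩ := g₂ B hB
    refine ⟨f₂ ⁻¹' B', ?_, h₂.quasiMeasurePreserving.preimage_ae_eq hBB⟩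
    have h1 : MeasurableSet[MeasurableSpace.comap f₂
        (⨆ g, MeasurableSpace.comap (fun x => a₂ (T₂ g x)) ⊤)] (f₂ ⁻¹' B') := ⟨B', hB', rfl⟩
    rw [MeasurableSpace.comap_iSup] at h1
    have hle : (⨆ g, MeasurableSpace.comap f₂ (MeasurableSpace.comap (fun x => a₂ (T₂ g x)) ⊤)) ≤
        genS TΩ (fun x => a₁ (f₁ x)) (fun x => a₂ (f₂ x)) := by
      refine iSup_mono fun g => ?_
      rw [MeasurableSpace.comap_comp]
      have : (fun x => a₂ (T₂ g x)) ∘ f₂ = fun x => a₂ (f₂ (TΩ g x)) := by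
        funext x; simp [e₂]
      rw [this]
      exact le_sup_right
    exact hle _ h1
  intro B hB
  obtain ⟨B₂, hB₂, rfl⟩ := hall B hB
  have h3 : MeasurableSet[MeasurableSpace.comap (fun x => (f₁ x, f₂ x))
      (m₁.comap Prod.fst ⊔ m₂.comap Prod.snd)] ((fun x => (f₁ x, f₂ x)) ⁻¹' B₂) := ⟨B₂, hB₂, rfl⟩
  rw [MeasurableSpace.comap_sup, MeasurableSpace.comap_comp, MeasurableSpace.comap_comp] at h3
  exact (sup_le c₁ c₂) _ h3

end
end Pool.Agent.TH722.AF
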