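import Pool.Agent.TH722.AF.Core4
namespace Pool.Agent.TH722.AF
open MeasureTheory Set Filter Pool.Agent.TH722.FI Jobs
open scoped Topology ENNReal
open Pool.Agent.TH480.FI (lab_pair lab_of_finer lab_comp lab_finite)

section
variable {r : ℕ} {L K M : Type*} [MeasurableSpace L] [MeasurableSpace K] [MeasurableSpace M]
    {μL : Measure L} {μK : Measure K} {μM : Measure M}
    [IsProbabilityMeasure μL] [IsProbabilityMeasure μK] [IsProbabilityMeasure μM]
    {TL : FreeGroup (Fin r) → L → L} {TK : FreeGroup (Fin r) → K → K}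
    {TM : FreeGroup (Fin r) → M → M} {π : L → M} {t : L → K → L} {d : L × L → K}
    {κL κK κM : Type*} [Finite κL] [Finite κK] [Finite κM]

theorem TO_pmp (hE : Ext μL μK μM TL TK TM π t d) : PmpAct (μL.prod μK) (TO TL TK) where
  one := fun p => by simp [TO, hE.aL.one, hE.aK.one]
  mul := fun g h p => by simp [TO, hE.aL.mul, hE.aK.mul]
  mp := fun g => (hE.aL.mp g).prod (hE.aK.mp g)

/-- the ball label of `γ(b,c) = a(t b c)` -/
theorem ball_gamma (hE : Ext μL μK μM TL TK TM π t d) (a : L → κL) (k : ℕ) :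
    ballLab (TO TL TK) (fun p : L × K => a (t p.1 p.2)) k =
      fun p => ballLab TL a k (t p.1 p.2) := by
  funext p g
  simp only [ballLab, TO, hE.teq]

/-- everything about the numbers `S1, S2, S3` -/
theorem core_facts (hE : Ext μL μK μM TL TK TM π t d) (aL : L → κL) (aK : K → κK) (aM : M → κM)
    (mL : ∀ v, MeasurableSet {x | aL x = v}) (mK : ∀ v, MeasurableSet {x | aK x = v})
    (mM : ∀ v, MeasurableSet {x | aM x = v}) (gL : Gen μL TL aL) (gK : Gen μK TK aK)
    (gM : Gen μM TM aM) :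
    ∃ (S2 S3 : ℕ → ℕ → ℝ) (D : ℕ → ℝ),
      (∀ n, ∀ ε > 0, ∃ n', ∀ k ≥ n', ∃ m0, ∀ m ≥ m0,
        S2 k m ≤ BF μK TK (ballLab TK aK n) + BF μL TL (ballLab TL aL m) + ε) ∧
      (∀ n, ∀ ε > 0, ∃ n', ∀ k ≥ n', ∃ m0, ∀ m ≥ m0,
        BF μK TK (ballLab TK aK k) + BF μL TL (ballLab TL aL m) ≤ S2 n m + ε) ∧
      (∀ k, Tendsto (fun m => S2 k m - BF μL TL (ballLab TL aL m)) atTop (𝓝 (D k))) ∧
      (∀ k, Tendsto (fun m => S3 k m - BF μM TM (ballLab TM aM m)) atTop (𝓝 (D k))) ∧
      (∀ n k : ℕ, ∀ ε > 0, ∃ n', BF μL TL (ballLab TL aL n') ≤ S3 n k + ε) ∧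
      (∀ n : ℕ, ∀ ε > 0, ∃ n', ∀ m : ℕ, S3 n' m ≤ BF μL TL (ballLab TL aL n) + ε) := by
  have hfst : MeasurePreserving (Prod.fst : L × K → L) (μL.prod μK) μL := measurePreserving_fst
  have hsnd : MeasurePreserving (Prod.snd : L × K → K) (μL.prod μK) μK := measurePreserving_snd
  have lL : IsLab μL aL := lab_finite mL (Set.toFinite _)
  have lK : IsLab μK aK := lab_finite mK (Set.toFinite _)
  have lM : IsLab μM aM := lab_finite mM (Set.toFinite _)
  have lδ : IsLab μL (fun b => aM (π b)) := (lab_comp hE.πmp lM).1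
  have lq : IsLab (μL.prod μK) (fun p : L × K => aL p.1) := (lab_comp hfst lL).1
  have lβ : IsLab (μL.prod μK) (fun p : L × K => aK p.2) := (lab_comp hsnd lK).1
  have lγ : IsLab (μL.prod μK) (fun p : L × K => aL (t p.1 p.2)) := (lab_comp hE.tmp lL).1
  have hTO := TO_pmp hE
  -- generating pairs
  have G1 : EGen (μL.prod μK) (fun n x => (ballLab (TO TL TK) (fun p : L × K => aK p.2) n x,
      ballLab (TO TL TK) (fun p : L × K => aL p.1) n x)) := by
    refine gen_egen (TO TL TK) hTO lβ lq ?_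
    exact gen_pair (TO TL TK) TK TL Prod.snd Prod.fst hsnd hfst (fun g x => rfl) (fun g x => rfl)
      aK aL gK gL (fun B hB => ⟨Prod.swap ⁻¹' B, measurable_swap hB, rfl⟩)
  have G2 : EGen (μL.prod μK) (fun n x => (ballLab (TO TL TK) (fun p : L × K => aL (t p.1 p.2)) n x,
      ballLab (TO TL TK) (fun p : L × K => aL p.1) n x)) := by
    refine gen_egen (TO TL TK) hTO lγ lq ?_
    refine gen_pair (TO TL TK) TL TL (fun p : L × K => t p.1 p.2) Prod.fst hE.tmp hfst
      (fun g x => by simp only [TO, hE.teq]) (fun g x => rfl)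
      aL aL gL gL (fun B hB => ?_)
    refine ⟨(fun z : L × L => (z.2, d (z.2, z.1))) ⁻¹' B, ?_, ?_⟩
    · exact (measurable_snd.prodMk (hE.dm.comp (measurable_snd.prodMk measurable_fst))) hB
    · ext p
      simp only [mem_preimage, hE.dt]
  have hS1 : ∀ k m, BF (μL.prod μK) (TO TL TK) (fun x =>
      (ballLab (TO TL TK) (fun p : L × K => aK p.2) k x,
        ballLab (TO TL TK) (fun p : L × K => aL p.1) m x)) =
      BF μK TK (ballLab TK aK k) + BF μL TL (ballLab TL aL m) := by
    intro k m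
    have h1 := (bf_prod TL TK hE.aL hE.aK (ballLab TL aL m) (ballLab TK aK k)
      (ball_lab TL hE.aL lL m).1 (ball_lab TK hE.aK lK k).1).2.2.2
    rw [add_comm, ← h1]
    apply BF_congr
    · intro x y h
      simp only [Prod.mk.injEq] at h ⊢
      exact ⟨h.2, h.1⟩
    · intro x y h
      simp only [Prod.mk.injEq] at h ⊢
      exact ⟨h.2, h.1⟩
  have hψm : ∀ k, ∀ v, MeasurableSet {x | ballLab TL aL k x = v} :=
    fun k => (ball_lab TL hE.aL lL k).1.meas
  refine ⟨fun k m => BF (μL.prod μK) (TO TL TK) (fun x =>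
      (ballLab (TO TL TK) (fun p : L × K => aL (t p.1 p.2)) k x,
        ballLab (TO TL TK) (fun p : L × K => aL p.1) m x)),
    fun k m => BF μL TL (fun x => (ballLab TL aL k x, ballLab TL (fun b => aM (π b)) m x)),
    fun k => DD μL μK TL t (ballLab TL aL k), ?_, ?_, ?_, ?_, ?_, ?_⟩
  · intro n ε hε
    obtain ⟨n', hn'⟩ := rel_indep (TO TL TK) hTO lβ lγ lq G1 G2 n ε hε
    refine ⟨n', fun k hk => ?_⟩
    obtain ⟨m0, hm0⟩ := hn' k hk
    refine ⟨m0, fun m hm => ?_⟩
    have := hm0 m hm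
    rw [hS1] at this
    exact this
  · intro n ε hε
    obtain ⟨n', hn'⟩ := rel_indep (TO TL TK) hTO lγ lβ lq G2 G1 n ε hε
    refine ⟨n', fun k hk => ?_⟩
    obtain ⟨m0, hm0⟩ := hn' k hk
    refine ⟨m0, fun m hm => ?_⟩
    have := hm0 m hm
    rw [hS1] at this
    exact this
  · intro k
    have : Finite {k' : FreeGroup (Fin r) // k'.norm ≤ k} := ball_finite r k
    have h1 := dlim1 hE (ballLab TL aL k) (hψm k) (fun m => ballLab TL aL m)
      (fun m => (ball_lab TL hE.aL lL m).1) (fun m => ball_finer TL aL (Nat.le_succ m))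
      (fun B hB => by
        obtain ⟨B', hB', hBB⟩ := gL B hB
        exact ⟨B', comap_le_ball TL aL _ hB', hBB⟩)
    refine h1.congr fun m => ?_
    congr 2
    rw [ball_gamma hE]
    rfl
  · intro k
    have : Finite {k' : FreeGroup (Fin r) // k'.norm ≤ k} := ball_finite r k
    have h1 := dlim2 hE (ballLab TL aL k) (hψm k) (fun m => ballLab TL (fun b => aM (π b)) m)
      (fun m => (ball_lab TL hE.aL lδ m).1) (fun m => ball_finer TL _ (Nat.le_succ m))
      (fun m b b' h => by
        funext g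
        simp only [ballLab, hE.πeq, h])
      (fun B hB => by
        obtain ⟨B', hB', hBB⟩ := gM B hB
        refine ⟨π ⁻¹' B', comap_le_ball TL _ _ ?_,
          hE.πmp.quasiMeasurePreserving.preimage_ae_eq hBB⟩
        have h1 : MeasurableSet[MeasurableSpace.comap π
          (⨆ g, MeasurableSpace.comap (fun x => aM (TM g x)) ⊤)] (π ⁻¹' B') := ⟨B', hB', rfl⟩
        rw [MeasurableSpace.comap_iSup] at h1
        have hle : (⨆ g, MeasurableSpace.comap π (MeasurableSpace.comap (fun x => aM (TM g x)) ⊤))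
            ≤ ⨆ g, MeasurableSpace.comap (fun x => aM (π (TL g x))) ⊤ := by
          refine iSup_mono fun g => ?_
          rw [MeasurableSpace.comap_comp]
          have : (fun x => aM (TM g x)) ∘ π = fun x => aM (π (TL g x)) := by
            funext x; simp [hE.πeq]
          rw [this]
        exact hle _ h1)
    refine h1.congr fun m => ?_
    congr 1
    have h2 := bf_transfer TL TM π hE.πmp hE.πeq hE.aM.mp (ball_lab TM hE.aM lM m).1
    rw [← h2]
    congr 1
    funext z g
    simp only [ballLab, hE.πeq]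
  · exact (abramov_rohlin TL hE.aL lL lδ (gen_egen' TL hE.aL lL gL)).1
  · exact (abramov_rohlin TL hE.aL lL lδ (gen_egen' TL hE.aL lL gL)).2

/-- the two inequalities of the addition formula, in terms of the approximating numbers -/
theorem core_ineq (hE : Ext μL μK μM TL TK TM π t d) (aL : L → κL) (aK : K → κK) (aM : M → κM)
    (mL : ∀ v, MeasurableSet {x | aL x = v}) (mK : ∀ v, MeasurableSet {x | aK x = v})
    (mM : ∀ v, MeasurableSet {x | aM x = v}) (gL : Gen μL TL aL) (gK : Gen μK TK aK)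
    (gM : Gen μM TM aM) :
    (∀ nM nK : ℕ, ∀ ε > 0, ∃ n, BF μL TL (ballLab TL aL n) ≤
      BF μM TM (ballLab TM aM nM) + BF μK TK (ballLab TK aK nK) + ε) ∧
    (∀ nL : ℕ, ∀ ε > 0, ∃ nM nK, BF μM TM (ballLab TM aM nM) + BF μK TK (ballLab TK aK nK) ≤
      BF μL TL (ballLab TL aL nL) + ε) := by
  obtain ⟨S2, S3, D, f1, f2, f3, f4, f5, f6⟩ := core_facts hE aL aK aM mL mK mM gL gK gM
  have lM : IsLab μM aM := lab_finite mM (Set.toFinite _)
  have hM := bf_anti TM hE.aM lM
  constructor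
  · intro nM nK ε hε
    obtain ⟨k, hk⟩ := f1 nK (ε / 5) (by positivity)
    obtain ⟨m1, hm1⟩ := hk k le_rfl
    have h3 := (f3 k).eventually (lt_mem_nhds (show D k - ε / 5 < D k by linarith))
    have h4 := (f4 k).eventually (gt_mem_nhds (show D k < D k + ε / 5 by linarith))
    obtain ⟨m, a1, a2, a3, a4⟩ := (((eventually_ge_atTop m1).and
      (h3.and (h4.and (eventually_ge_atTop nM)))).exists)
    obtain ⟨n', hn'⟩ := f5 k m (ε / 5) (by positivity)
    refine ⟨n', ?_⟩
    have b1 := hm1 m a1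
    have b2 := hM a4
    simp only at b2
    linarith
  · intro nL ε hε
    obtain ⟨k, hk⟩ := f6 nL (ε / 5) (by positivity)
    obtain ⟨k', hk'⟩ := f2 k (ε / 5) (by positivity)
    obtain ⟨m1, hm1⟩ := hk' k' le_rfl
    have h3 := (f3 k).eventually (gt_mem_nhds (show D k < D k + ε / 5 by linarith))
    have h4 := (f4 k).eventually (lt_mem_nhds (show D k - ε / 5 < D k by linarith))
    obtain ⟨m, a1, a2, a3⟩ := (((eventually_ge_atTop m1).and (h3.and h4)).exists)
    refine ⟨m, k', ?_⟩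
    have b1 := hm1 m a1
    have b2 := hk m
    linarith

end
end Pool.Agent.TH722.AF
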